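import Mathlib

/-!
# Finite simplicial complexes on a finite vertex set and their geometric realisations
-/

set_option autoImplicit false

namespace Pool.Agent.Q38.SB

/-- An abstract simplicial complex with vertices in `α`: a nonempty family of subsets (the faces,
including the empty face) which is closed under taking subsets. -/
def IsComplex {α : Type*} (K : Set (Set α)) : Prop :=
  K.Nonempty ∧ ∀ F ∈ K, ∀ G ⊆ F, G ∈ K

/-- The geometric realisation of `K` (`α` finite): the points of the standard simplex of `ℝ ^ α` whose
support is a face of `K`, with the topology of a subspace of `ℝ ^ α`. -/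
def Realization {α : Type*} [Fintype α] (K : Set (Set α)) : Set (α → ℝ) :=
  {x | (∀ a, 0 ≤ x a) ∧ ∑ a, x a = 1 ∧ Function.support x ∈ K}

/-- The vectors `v a` are the rays of a complete simplicial fan with faces `K`: every point of `V` is in
a unique way a nonnegative combination of the vectors of a face. -/
def IsFan {α : Type*} [Fintype α] (K : Set (Set α)) {V : Type*} [AddCommGroup V] [Module ℝ V]
    (v : α → V) : Prop :=
  ∀ p : V, ∃! x : α → ℝ, (∀ a, 0 ≤ x a) ∧ Function.support x ∈ K ∧ ∑ a, x a • v a = p

end Pool.Agent.Q38.SB
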