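import Pool.Agent.Q38.SB.Stellar

set_option autoImplicit false

namespace Pool.Agent.Q38.SB

variable {α : Type*} [Fintype α]

theorem IsFan.map {K : Set (Set α)} {V W : Type*} [AddCommGroup V] [Module ℝ V]
    [AddCommGroup W] [Module ℝ W] {v : α → V} (h : IsFan K v) (L : V ≃ₗ[ℝ] W) :
    IsFan K (fun a => L (v a)) := by
  intro p
  obtain ⟨x, ⟨h1, h2, h3⟩, h4⟩ := h (L.symm p)
  refine ⟨x, ⟨h1, h2, ?_⟩, ?_⟩
  · have : ∑ a, x a • L (v a) = L (∑ a, x a • v a) := by simp [map_sum]
    rw [this, h3]
    simp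
  · rintro y ⟨h5, h6, h7⟩
    apply h4
    refine ⟨h5, h6, ?_⟩
    have : ∑ a, y a • L (v a) = L (∑ a, y a • v a) := by simp [map_sum]
    rw [this] at h7
    rw [← h7]
    simp

theorem isClosed_realization {K : Set (Set α)} (hK : IsComplex K) : IsClosed (Realization K) := by
  have h1 : Realization K = ⋃ F ∈ K, {x : α → ℝ | (∀ a, 0 ≤ x a) ∧ ∑ a, x a = 1 ∧ ∀ a, a ∉ F → x a = 0} := by
    ext x
    simp only [Realization, Set.mem_ofPred_eq, Set.mem_iUnion, exists_prop]
    constructor
    · rintro ⟨h1, h2, h3⟩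
      refine ⟨_, h3, h1, h2, ?_⟩
      intro a ha
      simpa using ha
    · rintro ⟨F, hF, h1, h2, h3⟩
      refine ⟨h1, h2, hK.2 F hF _ ?_⟩
      intro a ha
      by_contra h
      exact ha (h3 a h)
  rw [h1]
  apply Set.Finite.isClosed_biUnion (Set.toFinite _)
  intro F _
  have h2 : {x : α → ℝ | (∀ a, 0 ≤ x a) ∧ ∑ a, x a = 1 ∧ ∀ a, a ∉ F → x a = 0} =
      (⋂ a, {x : α → ℝ | 0 ≤ x a}) ∩ ({x | ∑ a, x a = 1} ∩ ⋂ a, ⋂ (_ : a ∉ F), {x | x a = 0}) := by
    ext x
    simp
  rw [h2]
  refine IsClosed.inter (isClosed_iInter fun a => isClosed_le continuous_const (continuous_apply a))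
    (IsClosed.inter ?_ (isClosed_iInter fun a => isClosed_iInter fun _ =>
      isClosed_eq (continuous_apply a) continuous_const))
  exact isClosed_eq (continuous_finsetSum _ fun a _ => continuous_apply a) continuous_const

theorem isCompact_realization {K : Set (Set α)} (hK : IsComplex K) : IsCompact (Realization K) := by
  refine (isCompact_stdSimplex ℝ α).of_isClosed_subset (isClosed_realization hK) ?_
  rintro x ⟨h1, h2, -⟩
  exact ⟨h1, h2⟩

theorem fan_homeo {K : Set (Set α)} (hK : IsComplex K) {d : ℕ}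
    {v : α → EuclideanSpace ℝ (Fin d)} (hf : IsFan K v) :
    Nonempty (Realization K ≃ₜ Metric.sphere (0 : EuclideanSpace ℝ (Fin d)) 1) := by
  classical
  have hf' := isFan_iff.1 hf
  have hemp : (∅ : Set α) ∈ K := by
    obtain ⟨F, hF⟩ := hK.1
    exact hK.2 F hF _ (Set.empty_subset _)
  have hcont : Continuous (fun x : α → ℝ => Phi v x) := by
    show Continuous (fun x : α → ℝ => ∑ a, x a • v a)
    exact continuous_finsetSum _ fun a _ => (continuous_apply a).smul continuous_const
  have hne : ∀ x ∈ Realization K, Phi v x ≠ 0 := by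
    rintro x ⟨h1, h2, h3⟩ h0
    have h4 : x = 0 := by
      apply hf.inj h1 h3 (fun _ => le_refl _)
      · simpa using hemp
      · rw [h0]
        exact (map_zero (Phi v)).symm
    rw [h4] at h2
    simp at h2
  have hnorm : ∀ x ∈ Realization K, 0 < ‖Phi v x‖ := fun x hx => norm_pos_iff.2 (hne x hx)
  let f : Realization K → Metric.sphere (0 : EuclideanSpace ℝ (Fin d)) 1 := fun x =>
    ⟨‖Phi v x.1‖⁻¹ • Phi v x.1, by
      have := hnorm x.1 x.2
      rw [mem_sphere_zero_iff_norm, norm_smul, norm_inv, norm_norm]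
      exact inv_mul_cancel₀ this.ne'⟩
  have hfc : Continuous f := by
    apply Continuous.subtype_mk
    have h1 : Continuous (fun x : Realization K => Phi v x.1) := hcont.comp continuous_subtype_val
    refine Continuous.smul (Continuous.inv₀ h1.norm ?_) h1
    intro x
    exact (hnorm x.1 x.2).ne'
  have hinj : Function.Injective f := by
    rintro ⟨x, hx⟩ ⟨y, hy⟩ hxy
    have hxy' : ‖Phi v x‖⁻¹ • Phi v x = ‖Phi v y‖⁻¹ • Phi v y := congrArg Subtype.val hxy
    have hx1 := hnorm x hx
    have hy1 := hnorm y hy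
    set c := ‖Phi v x‖ * ‖Phi v y‖⁻¹ with hc
    have hcpos : 0 < c := by positivity
    have h1 : Phi v x = Phi v (c • y) := by
      rw [map_smul, hc, mul_smul, ← hxy', smul_smul, mul_inv_cancel₀ hx1.ne', one_smul]
    have h2 : x = c • y := by
      apply hf.inj hx.1 hx.2.2 _ _ h1
      · intro a
        have := hy.1 a
        simp only [Pi.smul_apply, smul_eq_mul]
        positivity
      · have : Function.support (c • y) = Function.support y := by
          ext a
          simp [hcpos.ne']
        rw [this]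
        exact hy.2.2
    have h3 : ∑ a, x a = c * ∑ a, y a := by
      rw [h2, Finset.mul_sum]
      rfl
    rw [hx.2.1, hy.2.1, mul_one] at h3
    rw [← h3, one_smul] at h2
    exact Subtype.ext h2
  have hsurj : Function.Surjective f := by
    rintro ⟨u, hu⟩
    have hu' : ‖u‖ = 1 := mem_sphere_zero_iff_norm.1 hu
    obtain ⟨x, ⟨h1, h2, h3⟩, -⟩ := hf' u
    have hx0 : x ≠ 0 := by
      rintro rfl
      rw [map_zero] at h3
      rw [← h3] at hu'
      simp at hu'
    have hs : 0 < ∑ a, x a := by
      apply lt_of_le_of_ne (Finset.sum_nonneg fun a _ => h1 a)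
      intro h
      apply hx0
      funext a
      exact (Finset.sum_eq_zero_iff_of_nonneg (fun a _ => h1 a)).1 h.symm a (Finset.mem_univ a)
    set s := ∑ a, x a with hsdef
    have hsi : 0 < s⁻¹ := inv_pos.2 hs
    have hmem : s⁻¹ • x ∈ Realization K := by
      refine ⟨?_, ?_, ?_⟩
      · intro a
        have := h1 a
        simp only [Pi.smul_apply, smul_eq_mul]
        positivity
      · simp only [Pi.smul_apply, smul_eq_mul]
        rw [← Finset.mul_sum, ← hsdef]
        exact inv_mul_cancel₀ hs.ne'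
      · have : Function.support (s⁻¹ • x) = Function.support x := by
          ext a
          simp [hs.ne']
        rw [this]
        exact h2
    refine ⟨⟨s⁻¹ • x, hmem⟩, ?_⟩
    apply Subtype.ext
    show ‖Phi v (s⁻¹ • x)‖⁻¹ • Phi v (s⁻¹ • x) = u
    rw [map_smul, h3, norm_smul, hu', mul_one, Real.norm_of_nonneg hsi.le, smul_smul,
      inv_mul_cancel₀ hsi.ne', one_smul]
  have : CompactSpace (Realization K) := isCompact_iff_compactSpace.1 (isCompact_realization hK)
  exact ⟨Continuous.homeoOfEquivCompactToT2 (f := Equiv.ofBijective f ⟨hinj, hsurj⟩) hfc⟩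

theorem fan_homeo' {K : Set (Set α)} (hK : IsComplex K) {d : ℕ}
    {V : Type*} [AddCommGroup V] [Module ℝ V] [Module.Finite ℝ V] (hd : Module.finrank ℝ V = d)
    {v : α → V} (hf : IsFan K v) :
    Nonempty (Realization K ≃ₜ Metric.sphere (0 : EuclideanSpace ℝ (Fin d)) 1) := by
  have hd' : Module.finrank ℝ V = Module.finrank ℝ (EuclideanSpace ℝ (Fin d)) := by
    rw [hd]
    simp
  exact fan_homeo hK (hf.map (LinearEquiv.ofFinrankEq V (EuclideanSpace ℝ (Fin d)) hd'))

end Pool.Agent.Q38.SB
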