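import Pool.Agent.Q38.SB.Suspension
import Pool.Agent.Q38.SB.Homeo

set_option autoImplicit false

open Set Matroid

namespace Pool.Agent.Q38.SB

variable {α : Type*}

/-- deleting an element of a matroid without coloops and without 2-element cocircuits creates no
coloop -/
theorem delete_no_coloop {M : Matroid α} (hM : ∀ e, ¬ M.IsColoop e)
    (hs : ∀ e g, e ≠ g → ¬ M.IsCocircuit {e, g}) (x : α) : ∀ e, ¬ (M ＼ {x}).IsColoop e := by
  intro y hy
  rw [← dual_isLoop_iff_isColoop, dual_delete, contract_isLoop_iff_mem_closure] at hy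
  obtain ⟨h1, h2⟩ := hy
  obtain ⟨C, hCs, hC, hyC⟩ := exists_isCircuit_of_mem_closure h1 h2
  have hxy : y ≠ x := h2
  have hMy : ¬ M✶.IsLoop y := by
    rw [dual_isLoop_iff_isColoop]
    exact hM y
  by_cases hx : x ∈ C
  · have hC' : C = {y, x} := by
      apply Set.Subset.antisymm hCs
      rintro a (rfl | ha)
      · exact hyC
      · rw [Set.mem_singleton_iff.1 ha]
        exact hx
    apply hs y x hxy
    rw [isCocircuit_def, ← hC']
    exact hC
  · have hC' : C = {y} := by
      apply Set.Subset.antisymm
      · intro a ha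
        rcases hCs ha with h | h
        · exact h
        · exact absurd ((Set.mem_singleton_iff.1 h) ▸ ha) hx
      · rintro a rfl
        exact hyC
    apply hMy
    rw [← singleton_isCircuit, ← hC']
    exact hC

/-- there is a complete fan whose faces are independent sets and include `B`, `B'` -/
def Good [Fintype α] (M : Matroid α) (B B' : Set α) : Prop :=
  ∃ (V : Type) (_ : AddCommGroup V) (_ : Module ℝ V) (_ : Module.Finite ℝ V)
    (K : Set (Set α)) (v : α → V), Module.finrank ℝ V = B.ncard ∧ IsComplex K ∧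
      (∀ F ∈ K, M.Indep F) ∧ B ∈ K ∧ B' ∈ K ∧ IsFan K v

theorem good_empty [Fintype α] (M : Matroid α) : Good M ∅ ∅ := by
  refine ⟨PUnit, inferInstance, inferInstance, inferInstance, {∅}, fun _ => 0, ?_, ?_, ?_, rfl, rfl, ?_⟩
  · rw [Set.ncard_empty]
    exact Module.finrank_zero_of_subsingleton
  · refine ⟨⟨∅, rfl⟩, ?_⟩
    rintro F rfl G hG
    exact Set.subset_empty_iff.1 hG
  · rintro F rfl
    exact M.empty_indep
  · intro p
    refine ⟨0, ⟨fun _ => le_refl _, by simp, Subsingleton.elim _ _⟩, ?_⟩
    rintro y ⟨-, h2, -⟩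
    have : Function.support y = ∅ := h2
    exact Function.support_eq_empty_iff.1 this

/-- the base of `M ／ {e}` attached to the base `B` of `M` -/
theorem contract_base {M : Matroid α} {e g : α} (heg : e ≠ g) (hs : M.IsCocircuit {e, g})
    {B : Set α} (hB : M.IsBase B) :
    ∃ B₁ : Set α, (M ／ {e}).IsBase B₁ ∧ ((e ∈ B ∧ B₁ = B \ {e}) ∨ (e ∉ B ∧ g ∈ B ∧ B₁ = B \ {g})) := by
  have heE : e ∈ M.E := hs.subset_ground (Set.mem_insert _ _)
  have heI : M.Indep {e} := by
    have h1 : ¬ M.IsLoop e := by
      intro h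
      rw [← singleton_isCircuit] at h
      apply h.inter_isCocircuit_ne_singleton hs (e := e)
      ext a
      simp only [Set.mem_inter_iff, Set.mem_insert_iff, Set.mem_singleton_iff]
      exact ⟨fun h => h.1, fun h => ⟨h, Or.inl h⟩⟩
    rw [indep_singleton]
    exact (not_isLoop_iff heE).1 h1
  by_cases heB : e ∈ B
  · refine ⟨B \ {e}, ?_, Or.inl ⟨heB, rfl⟩⟩
    rw [heI.contract_isBase_iff]
    refine ⟨?_, Set.disjoint_sdiff_left⟩
    rw [Set.sdiff_union_self, Set.union_eq_self_of_subset_right (Set.singleton_subset_iff.2 heB)]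
    exact hB
  · have hC := hB.fundCircuit_isCircuit heE heB
    have hgC : g ∈ M.fundCircuit e B := by
      by_contra hg
      apply hC.inter_isCocircuit_ne_singleton hs (e := e)
      ext a
      simp only [Set.mem_inter_iff, Set.mem_insert_iff, Set.mem_singleton_iff]
      constructor
      · rintro ⟨h1, h2 | h2⟩
        · exact h2
        · exact absurd (h2 ▸ h1) hg
      · rintro rfl
        exact ⟨M.mem_fundCircuit _ _, Or.inl rfl⟩
    have hgB : g ∈ B := by
      rcases M.fundCircuit_subset_insert e B hgC with h | h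
      · exact absurd h.symm heg
      · exact h
    refine ⟨B \ {g}, ?_, Or.inr ⟨heB, hgB, rfl⟩⟩
    rw [heI.contract_isBase_iff]
    refine ⟨?_, ?_⟩
    · rw [hB.indep.mem_fundCircuit_iff (by rwa [hB.closure_eq]) heB] at hgC
      have := hB.exchange_isBase_of_indep' hgB heB hgC
      have h2 : B \ {g} ∪ {e} = insert e B \ {g} := by
        ext a
        simp only [Set.mem_union, Set.mem_sdiff, Set.mem_insert_iff, Set.mem_singleton_iff]
        constructor
        · rintro (⟨h1, h2⟩ | rfl)
          · exact ⟨Or.inr h1, h2⟩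
          · exact ⟨Or.inl rfl, heg⟩
        · rintro ⟨h1 | h1, h2⟩
          · exact Or.inr h1
          · exact Or.inl ⟨h1, h2⟩
      rw [h2]
      exact this
    · rw [Set.disjoint_singleton_right]
      exact fun h => heB h.1

theorem good_series [Fintype α] [DecidableEq α] {M : Matroid α} {e g : α} (heg : e ≠ g)
    (hs : M.IsCocircuit {e, g})
    {B B' : Set α} (hB : M.IsBase B) (hB' : M.IsBase B')
    (ih : ∀ B₁ B₁' : Set α, (M ／ {e}).IsBase B₁ → (M ／ {e}).IsBase B₁' → Good (M ／ {e}) B₁ B₁') :
    Good M B B' := by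
  obtain ⟨B₁, hB₁, hB₁'⟩ := contract_base heg hs hB
  obtain ⟨B₂, hB₂, hB₂'⟩ := contract_base heg hs hB'
  obtain ⟨V, _, _, _, K, v, hfin, hKc, hKi, hK1, hK2, hf⟩ := ih B₁ B₂ hB₁ hB₂
  have heE : e ∈ M.E := hs.subset_ground (Set.mem_insert _ _)
  have heI : M.Indep {e} := by
    have h1 : ¬ M.IsLoop e := by
      intro h
      rw [← singleton_isCircuit] at h
      apply h.inter_isCocircuit_ne_singleton hs (e := e)
      ext a
      simp only [Set.mem_inter_iff, Set.mem_insert_iff, Set.mem_singleton_iff]
      exact ⟨fun h => h.1, fun h => ⟨h, Or.inl h⟩⟩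
    rw [indep_singleton]
    exact (not_isLoop_iff heE).1 h1
  have hKi' : ∀ F ∈ K, e ∉ F ∧ M.Indep (insert e F) := by
    intro F hF
    have := hKi F hF
    rw [heI.contract_indep_iff] at this
    refine ⟨Set.disjoint_singleton_right.1 this.1, ?_⟩
    rw [← Set.union_singleton]
    exact this.2
  have hmem : ∀ B B₁ : Set α, B₁ ∈ K →
      ((e ∈ B ∧ B₁ = B \ {e}) ∨ (e ∉ B ∧ g ∈ B ∧ B₁ = B \ {g})) → B ∈ susp K e g := by
    rintro B B₁ h1 (⟨h2, rfl⟩ | ⟨h2, h3, rfl⟩)
    · by_cases hg : g ∈ B
      · exact Or.inl ⟨h2, hg, h1⟩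
      · refine Or.inr ⟨fun h => hg h.2, hKc.2 _ h1 _ ?_⟩
        intro a ha
        exact ⟨ha.1, fun h => ha.2 (Or.inl h)⟩
    · refine Or.inr ⟨fun h => h2 h.1, hKc.2 _ h1 _ ?_⟩
      intro a ha
      exact ⟨ha.1, fun h => ha.2 (Or.inr h)⟩
  refine ⟨V × ℝ, inferInstance, inferInstance, inferInstance, susp K e g, suspVec v e g, ?_,
    susp_complex hKc e g, ?_, hmem B B₁ hK1 hB₁', hmem B' B₂ hK2 hB₂',
    susp_fan hKc hf heg (fun F hF => (hKi' F hF).1)⟩
  · rw [Module.finrank_prod, hfin, Module.finrank_self]
    rcases hB₁' with ⟨h1, h2⟩ | ⟨h1, h2, h3⟩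
    · rw [h2]
      exact Set.ncard_sdiff_singleton_add_one h1 (Set.toFinite _)
    · rw [h3]
      exact Set.ncard_sdiff_singleton_add_one h2 (Set.toFinite _)
  · rintro G (⟨h1, h2, h3⟩ | ⟨h1, h2⟩)
    · have := (hKi' _ h3).2
      rwa [Set.insert_sdiff_singleton, Set.insert_eq_of_mem h1] at this
    · have h3 := (hKi' _ h2).2
      by_cases he : e ∈ G
      · have hg : g ∉ G := fun h => h1 ⟨he, h⟩
        apply h3.subset
        intro a ha
        by_cases h4 : a = e
        · exact Or.inl h4
        · refine Or.inr ⟨ha, ?_⟩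
          rintro (h5 | h5)
          · exact h4 h5
          · rw [Set.mem_singleton_iff.1 h5] at ha
            exact hg ha
      · by_contra hdep
        have hGE : G ⊆ M.E := by
          intro a ha
          by_cases h4 : a = g
          · rw [h4]
            exact hs.subset_ground (by simp)
          · have : a ∈ insert e (G \ {e, g}) := by
              refine Or.inr ⟨ha, ?_⟩
              rintro (h5 | h5)
              · exact he (h5 ▸ ha)
              · exact h4 h5
            exact h3.subset_ground this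
        obtain ⟨C, hCG, hC⟩ := ((not_indep_iff hGE).1 hdep).exists_isCircuit_subset
        have hgC : g ∈ C := by
          by_contra hg
          apply hC.not_indep
          apply h3.subset
          intro a ha
          refine Or.inr ⟨hCG ha, ?_⟩
          rintro (h5 | h5)
          · exact he (h5 ▸ hCG ha)
          · exact hg (Set.mem_singleton_iff.1 h5 ▸ ha)
        apply hC.inter_isCocircuit_ne_singleton hs (e := g)
        ext a
        simp only [Set.mem_inter_iff, Set.mem_insert_iff, Set.mem_singleton_iff]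
        constructor
        · rintro ⟨h4, h5 | h5⟩
          · exact absurd (hCG (h5 ▸ h4)) he
          · exact h5
        · rintro rfl
          exact ⟨hgC, Or.inr rfl⟩

theorem delete_base {M : Matroid α} {x : α} (hx : ¬ M.IsColoop x) {B : Set α} :
    (M ＼ {x}).IsBase B ↔ M.IsBase B ∧ x ∉ B := by
  by_cases hxE : x ∈ M.E
  · have h1 : M.Coindep {x} := by
      rw [coindep_def, indep_singleton]
      rw [← dual_isLoop_iff_isColoop] at hx
      exact (not_isLoop_iff (by exact hxE)).1 hx
    rw [h1.delete_isBase_iff, Set.disjoint_singleton_right]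
  · rw [deleteElem_eq_self hxE]
    exact ⟨fun h => ⟨h, fun h' => hxE (h.subset_ground h')⟩, fun h => h.1⟩

theorem good_of_delete [Fintype α] {M : Matroid α} {x : α} {B B' : Set α}
    (h : Good (M ＼ {x}) B B') : Good M B B' := by
  obtain ⟨V, _, _, _, K, v, hfin, hKc, hKi, hK1, hK2, hf⟩ := h
  exact ⟨V, inferInstance, inferInstance, inferInstance, K, v, hfin, hKc,
    fun F hF => (hKi F hF).of_delete, hK1, hK2, hf⟩

theorem good_stellar [Fintype α] [DecidableEq α] {M : Matroid α} {e e₂ f : α}
    {B B' : Set α} (hB : M.IsBase B)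
    (heB : e ∈ B) (heB' : e ∉ B') (he₂B' : e₂ ∉ B') (hee₂ : e₂ ≠ e) (hfE : f ∈ M.E) (hfB : f ∉ B)
    (he : e ∈ M.fundCircuit f B) (he₂ : e₂ ∈ M.fundCircuit f B)
    (ih : Good (M ＼ {e}) (insert f (B \ {e})) B') :
    Good M B B' := by
  classical
  obtain ⟨V, _, _, _, K, v, hfin, hKc, hKi, hK1, hK2, hf⟩ := ih
  have hef : f ≠ e := fun h => hfB (h ▸ heB)
  have hC := hB.fundCircuit_isCircuit hfE hfB
  set C := M.fundCircuit f B with hCdef
  have hCs : C ⊆ insert f B := M.fundCircuit_subset_insert f B
  have hfC : f ∈ C := M.mem_fundCircuit f B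
  set A := C \ {e} with hAdef
  have hAs : A ⊆ insert f (B \ {e}) := by
    rintro a ⟨h1, h2⟩
    rcases hCs h1 with h | h
    · exact Or.inl h
    · exact Or.inr ⟨h, h2⟩
  have hAK : A ∈ K := hKc.2 _ hK1 _ hAs
  have hfA : f ∈ A := ⟨hfC, hef⟩
  have hKi' : ∀ F ∈ K, M.Indep F ∧ e ∉ F := by
    intro F hF
    have := hKi F hF
    rwa [deleteElem_indep_iff] at this
  refine ⟨V, inferInstance, inferInstance, inferInstance, stellar K A e, _, ?_,
    stellar_complex hKc hAK ⟨f, hfA⟩ e, ?_, ?_, ?_, stellar_fan hf hAK ⟨f, hfA⟩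
      (fun F hF => (hKi' F hF).2)⟩
  · rw [hfin, Set.ncard_insert_of_notMem (fun h => hfB h.1) (Set.toFinite _)]
    exact Set.ncard_sdiff_singleton_add_one heB (Set.toFinite _)
  · rintro G (⟨h1, h2, h3⟩ | ⟨h1, h2, h3⟩)
    · exact (hKi' G h2).1
    · obtain ⟨h4, h5⟩ := hKi' _ h3
      by_contra hdep
      have hGs : G ⊆ insert e (G \ {e} ∪ A) := by
        intro a ha
        by_cases hae : a = e
        · exact Or.inl hae
        · exact Or.inr (Or.inl ⟨ha, hae⟩)
      have hGE : G ⊆ M.E := by
        refine hGs.trans (Set.insert_subset (hC.subset_ground he) h4.subset_ground)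
      obtain ⟨C', hC'G, hC'⟩ := ((not_indep_iff hGE).1 hdep).exists_isCircuit_subset
      have h6 := hC'.eq_fundCircuit_of_subset h4 (hC'G.trans hGs)
      have h7 : C ⊆ insert e (G \ {e} ∪ A) := by
        intro a ha
        by_cases hae : a = e
        · exact Or.inl hae
        · exact Or.inr (Or.inr ⟨ha, hae⟩)
      have h8 := hC.eq_fundCircuit_of_subset h4 h7
      apply h2
      intro a ha
      apply hC'G
      rw [h6, ← h8]
      exact ha.1
  · right
    refine ⟨heB, fun h => hfB (h hfA), hKc.2 _ hK1 _ ?_⟩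
    rintro a (h | h)
    · exact Or.inr h
    · exact hAs h
  · left
    exact ⟨heB', hK2, fun h => he₂B' (h ⟨he₂, hee₂⟩)⟩

theorem main [Fintype α] [DecidableEq α] : ∀ (n : ℕ) (M : Matroid α), M.E.ncard = n →
    (∀ e, ¬ M.IsColoop e) → ∀ B B' : Set α, M.IsBase B → M.IsBase B' → Good M B B' := by
  intro n
  induction n using Nat.strong_induction_on with
  | _ n IH =>
  intro M hn hM B B' hB hB'
  by_cases hs : ∃ e g, e ≠ g ∧ M.IsCocircuit {e, g}
  · obtain ⟨e, g, heg, hs⟩ := hs
    have heE : e ∈ M.E := hs.subset_ground (Set.mem_insert _ _)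
    refine good_series heg hs hB hB' ?_
    refine IH _ ?_ (M ／ {e}) rfl ?_
    · rw [contract_ground, ← hn]
      exact Set.ncard_sdiff_singleton_lt_of_mem heE (Set.toFinite _)
    · intro a ha
      rw [contract_isColoop_iff] at ha
      exact hM a ha.1
  · have hs' : ∀ e g, e ≠ g → ¬ M.IsCocircuit {e, g} := fun e g h1 h2 => hs ⟨e, g, h1, h2⟩
    have hdel : ∀ x ∈ M.E, ∀ B B' : Set α, M.IsBase B → M.IsBase B' → x ∉ B → x ∉ B' →
        Good (M ＼ {x}) B B' := by
      intro x hx B B' h1 h2 h3 h4
      refine IH _ ?_ (M ＼ {x}) rfl (delete_no_coloop hM hs' x) B B'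
        ((delete_base (hM x)).2 ⟨h1, h3⟩) ((delete_base (hM x)).2 ⟨h2, h4⟩)
      rw [delete_ground, ← hn]
      exact Set.ncard_sdiff_singleton_lt_of_mem hx (Set.toFinite _)
    by_cases hx : ∃ x ∈ M.E, x ∉ B ∧ x ∉ B'
    · obtain ⟨x, hxE, hx1, hx2⟩ := hx
      exact good_of_delete (hdel x hxE B B' hB hB' hx1 hx2)
    · push Not at hx
      by_cases hBB : B = B'
      · subst hBB
        have h1 : ∀ x ∈ M.E, x ∈ B := by
          intro x hxE
          by_contra h
          exact h (hx x hxE h)
        have h2 : B = ∅ := by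
          by_contra h
          obtain ⟨x, hxB⟩ := Set.nonempty_iff_ne_empty.2 h
          apply hM x
          rw [isColoop_iff_forall_mem_isBase]
          intro B₂ hB₂
          have h3 : B₂ = B := hB₂.eq_of_subset_isBase hB (fun a ha => h1 a (hB₂.subset_ground ha))
          rw [h3]
          exact hxB
        rw [h2]
        exact good_empty M
      · -- an element of `B'` outside `B`
        have hne : ¬ B' ⊆ B := fun h => hBB (hB'.eq_of_subset_isBase hB h).symm
        obtain ⟨f, hfB', hfB⟩ := Set.not_subset.1 hne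
        have hfE : f ∈ M.E := hB'.subset_ground hfB'
        by_cases h2 : ∃ f ∈ B', f ∉ B ∧ ∃ e e₂, e ≠ e₂ ∧ e ∈ M.fundCircuit f B ∧ e ∈ B ∧ e ∉ B' ∧
            e₂ ∈ M.fundCircuit f B ∧ e₂ ∉ B'
        · obtain ⟨f, hfB', hfB, e, e₂, hee, he, heB, heB', he2, he2B'⟩ := h2
          have hfE : f ∈ M.E := hB'.subset_ground hfB'
          have hef : f ≠ e := fun h => hfB (h ▸ heB)
          refine good_stellar hB heB heB' he2B' (Ne.symm hee) hfE hfB he he2 ?_
          apply hdel e (hB.subset_ground heB) _ _ _ hB' _ heB'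
          · apply hB.exchange_isBase_of_indep hfB
            rw [hB.indep.mem_fundCircuit_iff (by rwa [hB.closure_eq]) hfB] at he
            rwa [Set.insert_sdiff_singleton_comm hef]
          · rintro (h | h)
            · exact hef h.symm
            · exact h.2 rfl
        · exfalso
          have huniq : ∀ f ∈ B', f ∉ B → ∀ e e₂, e ∈ M.fundCircuit f B → e ∉ B' →
              e₂ ∈ M.fundCircuit f B → e₂ ∉ B' → e = e₂ := by
            intro f hfB' hfB e e₂ h3 h4 h5 h6
            by_contra h7
            have heB : e ∈ B := by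
              rcases M.fundCircuit_subset_insert f B h3 with h | h
              · exact absurd (h ▸ hfB') h4
              · exact h
            exact h2 ⟨f, hfB', hfB, e, e₂, h7, h3, heB, h4, h5, h6⟩
          have hC := hB.fundCircuit_isCircuit hfE hfB
          have hnsub : ¬ M.fundCircuit f B ⊆ B' := fun h => hC.not_indep (hB'.indep.subset h)
          obtain ⟨e, heC, heB'⟩ := Set.not_subset.1 hnsub
          have heB : e ∈ B := by
            rcases M.fundCircuit_subset_insert f B heC with h | h
            · exact absurd (h ▸ hfB') heB'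
            · exact h
          have hef : e ≠ f := fun h => hfB (h ▸ heB)
          apply hs' e f hef
          have hD := fundCocircuit_isCocircuit heB hB
          have hDeq : M.fundCocircuit e B = {e, f} := by
            ext h
            constructor
            · intro hh
              rcases M.fundCocircuit_subset_insert_compl e B hh with h3 | ⟨h3, h4⟩
              · exact Or.inl h3
              · right
                have h5 : e ∈ M.fundCircuit h B := hB.mem_fundCocircuit_iff_mem_fundCircuit.1 hh
                have hhB' : h ∈ B' := by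
                  by_contra h6
                  exact h6 (hx h h3 h4)
                by_contra hhf
                have hC' := hB.fundCircuit_isCircuit h3 h4
                have hne2 : M.fundCircuit f B ≠ M.fundCircuit h B := by
                  intro h6
                  have h7 : f ∈ M.fundCircuit h B := h6 ▸ M.mem_fundCircuit f B
                  rcases M.fundCircuit_subset_insert h B h7 with h8 | h8
                  · exact hhf h8.symm
                  · exact hfB h8
                obtain ⟨C, hCs, hCc⟩ := hC.elimination hC' hne2 e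
                apply hCc.not_indep
                apply hB'.indep.subset
                intro a ha
                obtain ⟨h6, h7⟩ := hCs ha
                by_contra h8
                rcases h6 with h6 | h6
                · exact h7 (huniq f hfB' hfB a e h6 h8 heC heB')
                · exact h7 (huniq h hhB' h4 a e h6 h8 h5 heB')
            · rintro (rfl | h3)
              · exact M.mem_fundCocircuit _ _
              · rw [Set.mem_singleton_iff.1 h3]
                exact hB.mem_fundCocircuit_iff_mem_fundCircuit.2 heC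
          rw [← hDeq]
          exact hD

/-- Any two bases of a finite matroid without coloops lie in a common spherical subcomplex. -/
theorem spherical [Fintype α] {M : Matroid α} (hM : ∀ e, ¬ M.IsColoop e)
    {B B' : Set α} (hB : M.IsBase B) (hB' : M.IsBase B') :
    ∃ K : Set (Set α), IsComplex K ∧ (∀ F ∈ K, M.Indep F) ∧ B ∈ K ∧ B' ∈ K ∧
      Nonempty (Realization K ≃ₜ Metric.sphere (0 : EuclideanSpace ℝ (Fin B.ncard)) 1) := by
  classical
  obtain ⟨V, _, _, _, K, v, hfin, hKc, hKi, hK1, hK2, hf⟩ := main _ M rfl hM B B' hB hB'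
  exact ⟨K, hKc, hKi, hK1, hK2, fan_homeo' hKc hfin hf⟩

end Pool.Agent.Q38.SB
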