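import Pool.Agent.Q38.SB.Defs

/-!
# Stellar subdivisions and one-point suspensions of complete simplicial fans
-/

set_option autoImplicit false

namespace Pool.Agent.Q38.SB

variable {α : Type*} [Fintype α] {V : Type*} [AddCommGroup V] [Module ℝ V]

/-- the linear map `x ↦ ∑ x a • v a` -/
noncomputable def Phi (v : α → V) : (α → ℝ) →ₗ[ℝ] V where
  toFun x := ∑ a, x a • v a
  map_add' x y := by simp [add_smul, Finset.sum_add_distrib]
  map_smul' c x := by simp [Finset.smul_sum, mul_smul]

theorem Phi_apply (v : α → V) (x : α → ℝ) : Phi v x = ∑ a, x a • v a := rfl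

theorem isFan_iff {K : Set (Set α)} {v : α → V} : IsFan K v ↔
    ∀ p : V, ∃! x : α → ℝ, (∀ a, 0 ≤ x a) ∧ Function.support x ∈ K ∧ Phi v x = p := Iff.rfl

theorem IsFan.inj {K : Set (Set α)} {v : α → V} (h : IsFan K v) {x y : α → ℝ}
    (hx : ∀ a, 0 ≤ x a) (hxK : Function.support x ∈ K) (hy : ∀ a, 0 ≤ y a)
    (hyK : Function.support y ∈ K) (hxy : Phi v x = Phi v y) : x = y :=
  (h (Phi v y)).unique ⟨hx, hxK, hxy⟩ ⟨hy, hyK, rfl⟩

variable [DecidableEq α]

theorem Phi_single (v : α → V) (a : α) (c : ℝ) : Phi v (Pi.single a c) = c • v a := by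
  rw [Phi_apply, Finset.sum_eq_single a]
  · simp
  · intro b _ hb
    simp [Pi.single_eq_of_ne hb]
  · simp

theorem Phi_update (v : α → V) (e : α) (w : V) (y : α → ℝ) :
    Phi (Function.update v e w) y = Phi v y + y e • (w - v e) := by
  rw [Phi_apply, Phi_apply, ← Finset.add_sum_erase _ _ (Finset.mem_univ e),
    ← Finset.add_sum_erase _ (fun a => y a • v a) (Finset.mem_univ e)]
  have h1 : ∑ a ∈ Finset.univ.erase e, y a • Function.update v e w a =
      ∑ a ∈ Finset.univ.erase e, y a • v a := by
    apply Finset.sum_congr rfl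
    intro a ha
    rw [Function.update_of_ne (Finset.ne_of_mem_erase ha)]
  rw [h1, Function.update_self, smul_sub]
  abel

/-- stellar subdivision of `K` at the face `A` with new vertex `e` -/
def stellar (K : Set (Set α)) (A : Set α) (e : α) : Set (Set α) :=
  {G | (e ∉ G ∧ G ∈ K ∧ ¬ A ⊆ G) ∨ (e ∈ G ∧ ¬ A ⊆ G ∧ (G \ {e}) ∪ A ∈ K)}

omit [Fintype α] [DecidableEq α] in
theorem stellar_complex {K : Set (Set α)} (hK : IsComplex K) {A : Set α} (hA : A ∈ K)
    (hne : A.Nonempty) (e : α) : IsComplex (stellar K A e) := by
  refine ⟨⟨∅, Or.inl ⟨by simp, hK.2 A hA ∅ (Set.empty_subset _), ?_⟩⟩, ?_⟩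
  · intro h
    exact hne.ne_empty (Set.subset_empty_iff.1 h)
  · rintro F (⟨h1, h2, h3⟩ | ⟨h1, h2, h3⟩) G hG
    · exact Or.inl ⟨fun h => h1 (hG h), hK.2 F h2 G hG, fun h => h3 (h.trans hG)⟩
    · by_cases he : e ∈ G
      · exact Or.inr ⟨he, fun h => h2 (h.trans hG), hK.2 _ h3 _
          (Set.union_subset_union_left _ (Set.sdiff_subset_sdiff_left hG))⟩
      · refine Or.inl ⟨he, hK.2 _ h3 G ?_, fun h => h2 (h.trans hG)⟩
        intro a ha
        exact Or.inl ⟨hG ha, fun h => he (Set.mem_singleton_iff.1 h ▸ ha)⟩

theorem stellar_fan {K : Set (Set α)} {v : α → V} (hf : IsFan K v)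
    {A : Set α} [DecidablePred (· ∈ A)] (hA : A ∈ K) (hne : A.Nonempty) {e : α}
    (he : ∀ F ∈ K, e ∉ F) :
    IsFan (stellar K A e) (Function.update v e (∑ a, if a ∈ A then v a else 0)) := by
  have heA : e ∉ A := he A hA
  set one : α → ℝ := fun a => if a ∈ A then 1 else 0 with hone
  have hw : (∑ a, if a ∈ A then v a else 0) = Phi v one := by
    rw [Phi_apply]
    apply Finset.sum_congr rfl
    intro a _
    simp only [hone]
    split_ifs <;> simp
  rw [hw, isFan_iff]
  have hphi : ∀ y : α → ℝ, Phi (Function.update v e (Phi v one)) y =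
      Phi v (y + y e • (one - (Pi.single e 1 : α → ℝ))) := by
    intro y
    rw [Phi_update, map_add, map_smul, map_sub, Phi_single, one_smul]
  have hT : ∀ (y : α → ℝ) (a : α), (y + y e • (one - (Pi.single e 1 : α → ℝ)) : α → ℝ) a =
      if a = e then 0 else if a ∈ A then y a + y e else y a := by
    intro y a
    by_cases h1 : a = e
    · subst h1
      simp [hone, heA]
    · simp only [Pi.add_apply, Pi.smul_apply, Pi.sub_apply, hone, Pi.single_eq_of_ne h1, smul_eq_mul,
        if_neg h1]
      split_ifs <;> ring
  -- the map back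
  have hback : ∀ y : α → ℝ, (∀ a, 0 ≤ y a) → Function.support y ∈ stellar K A e →
      (∀ a, 0 ≤ (y + y e • (one - (Pi.single e 1 : α → ℝ)) : α → ℝ) a) ∧
        Function.support (y + y e • (one - (Pi.single e 1 : α → ℝ))) ∈ K := by
    intro y hy hyK
    refine ⟨?_, ?_⟩
    · intro a
      rw [hT]
      have := hy a
      have := hy e
      split_ifs <;> positivity
    · rcases hyK with ⟨h1, h2, h3⟩ | ⟨h1, h2, h3⟩
      · have h0 : y e = 0 := by simpa using h1
        rw [h0, zero_smul, add_zero]
        exact h2
      · have hpos : 0 < y e := lt_of_le_of_ne (hy e) (Ne.symm h1)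
        have hs : Function.support (y + y e • (one - (Pi.single e 1 : α → ℝ))) =
            (Function.support y \ {e}) ∪ A := by
          ext a
          rw [Function.mem_support, hT]
          by_cases hae : a = e
          · subst hae
            simp [heA]
          · by_cases haA : a ∈ A
            · have := hy a
              simp [hae, haA]
              positivity
            · simp [hae, haA]
        rw [hs]
        exact h3
  intro p
  obtain ⟨x, ⟨hx0, hxK, hxp⟩, hxu⟩ := hf p
  have hxp : Phi v x = p := hxp
  have hxe : x e = 0 := by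
    have := he _ hxK
    simpa using this
  have hAf : A.Finite := Set.toFinite A
  obtain ⟨a₀, ha₀, hmin⟩ := Set.exists_min_image A x hAf hne
  have ha₀e : a₀ ≠ e := fun h => heA (h ▸ ha₀)
  set t := x a₀ with ht
  have ht0 : 0 ≤ t := hx0 a₀
  refine ⟨fun a => if a = e then t else if a ∈ A then x a - t else x a, ⟨?_, ?_, ?_⟩, ?_⟩
  · intro a
    have := hx0 a
    simp only
    split_ifs with h1 h2
    · exact ht0
    · have := hmin a h2
      linarith
    · exact this
  · by_cases htz : t = 0
    · left
      have hs : Function.support (fun a => if a = e then t else if a ∈ A then x a - t else x a) =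
          Function.support x := by
        ext a
        simp only [Function.mem_support, htz, sub_zero]
        by_cases h1 : a = e
        · subst h1
          simp [hxe]
        · simp [h1]
      rw [hs]
      refine ⟨by simp [hxe], hxK, fun h => ?_⟩
      exact h ha₀ (ht ▸ htz)
    · right
      have htp : 0 < t := lt_of_le_of_ne ht0 (Ne.symm htz)
      refine ⟨by simp [htz], ?_, ?_⟩
      · intro h
        have := h ha₀
        simp [ha₀e, ha₀, ← ht] at this
      · have hs : (Function.support (fun a => if a = e then t else if a ∈ A then x a - t else x a)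
            \ {e}) ∪ A = Function.support x := by
          ext a
          simp only [Set.mem_union, Set.mem_sdiff, Function.mem_support, Set.mem_singleton_iff]
          by_cases h1 : a = e
          · subst h1
            simp [hxe, heA]
          · by_cases h2 : a ∈ A
            · have := hmin a h2
              have h3 : x a ≠ 0 := by
                intro h4
                rw [h4] at this
                linarith
              simp [h1, h2, h3]
            · simp [h1, h2]
        rw [hs]
        exact hxK
  · show Phi _ _ = p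
    rw [hphi, ← hxp]
    congr 1
    funext a
    rw [hT]
    by_cases h1 : a = e
    · subst h1
      simp [hxe]
    · by_cases h2 : a ∈ A
      · simp [h1, h2]
      · simp [h1, h2]
  · rintro y ⟨hy0, hyK, hyp⟩
    have hyp : Phi _ y = p := hyp
    rw [hphi] at hyp
    obtain ⟨h1, h2⟩ := hback y hy0 hyK
    have hyx := hxu _ ⟨h1, h2, hyp⟩
    have hval : ∀ a, x a = if a = e then 0 else if a ∈ A then y a + y e else y a := by
      intro a
      rw [← hyx, hT]
    have hnA : ¬ A ⊆ Function.support y := by
      rcases hyK with h | h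
      · exact h.2.2
      · exact h.2.1
    obtain ⟨b, hbA, hb⟩ := Set.not_subset.1 hnA
    have hb0 : y b = 0 := by simpa using hb
    have hbe : b ≠ e := fun h => heA (h ▸ hbA)
    have hye : y e = t := by
      apply le_antisymm
      · rw [ht, hval a₀, if_neg ha₀e, if_pos ha₀]
        have := hy0 a₀
        linarith
      · have h3 := hmin b hbA
        have h4 := hval b
        rw [if_neg hbe, if_pos hbA, hb0, zero_add] at h4
        rw [h4] at h3
        exact h3
    funext a
    by_cases h3 : a = e
    · subst h3
      simp [hye]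
    · have h4 := hval a
      by_cases h5 : a ∈ A
      · rw [if_neg h3, if_pos h5] at h4
        simp only [if_neg h3, if_pos h5, h4, hye]
        ring
      · rw [if_neg h3, if_neg h5] at h4
        simp only [if_neg h3, if_neg h5, h4]

end Pool.Agent.Q38.SB
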