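import Pool.Agent.Q38.SB.Stellar

set_option autoImplicit false

namespace Pool.Agent.Q38.SB

variable {α : Type*} [Fintype α] {V : Type*} [AddCommGroup V] [Module ℝ V]

/-- one-point suspension of `K` at `g` with new vertex `e` -/
def susp (K : Set (Set α)) (e g : α) : Set (Set α) :=
  {G | (e ∈ G ∧ g ∈ G ∧ G \ {e} ∈ K) ∨ (¬ (e ∈ G ∧ g ∈ G) ∧ G \ {e, g} ∈ K)}

omit [Fintype α] in
theorem susp_complex {K : Set (Set α)} (hK : IsComplex K) (e g : α) : IsComplex (susp K e g) := by
  obtain ⟨F, hF⟩ := hK.1
  refine ⟨⟨∅, Or.inr ⟨by simp, ?_⟩⟩, ?_⟩
  · rw [Set.empty_sdiff]
    exact hK.2 F hF _ (Set.empty_subset _)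
  · rintro F (⟨h1, h2, h3⟩ | ⟨h1, h2⟩) G hG
    · by_cases he : e ∈ G ∧ g ∈ G
      · exact Or.inl ⟨he.1, he.2, hK.2 _ h3 _ (Set.sdiff_subset_sdiff_left hG)⟩
      · refine Or.inr ⟨he, hK.2 _ h3 _ ?_⟩
        intro a ha
        exact ⟨hG ha.1, fun h => ha.2 (Or.inl h)⟩
    · by_cases he : e ∈ G ∧ g ∈ G
      · exact absurd ⟨hG he.1, hG he.2⟩ h1
      · exact Or.inr ⟨he, hK.2 _ h2 _ (Set.sdiff_subset_sdiff_left hG)⟩

variable [DecidableEq α]

theorem Phi_update_right (v : α → V) (g : α) (c : ℝ) (x : α → ℝ) :
    Phi v (Function.update x g c) = Phi v x + (c - x g) • v g := by
  have : Function.update x g c = x + Pi.single g (c - x g) := by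
    funext a
    by_cases h : a = g
    · subst h
      simp
    · simp [h]
  rw [this, map_add, Phi_single]

/-- the vectors of the one-point suspension -/
noncomputable def suspVec (v : α → V) (e g : α) : α → V × ℝ :=
  fun a => if a = e then (0, 1) else if a = g then (v g, -1) else (v a, 0)

theorem Phi_suspVec (v : α → V) {e g : α} (heg : e ≠ g) (y : α → ℝ) :
    Phi (suspVec v e g) y = (Phi v (Function.update y e 0), y e - y g) := by
  rw [Phi_apply]
  apply Prod.ext
  · rw [Prod.fst_sum, Phi_apply]
    apply Finset.sum_congr rfl
    intro a _
    by_cases h1 : a = e
    · subst h1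
      simp [suspVec]
    · by_cases h2 : a = g
      · subst h2
        simp [suspVec, h1]
      · simp [suspVec, h1, h2]
  · rw [Prod.snd_sum]
    have : ∀ a, (y a • suspVec v e g a).2 = (if a = e then y e else 0) + (if a = g then - y g else 0) := by
      intro a
      by_cases h1 : a = e
      · subst h1
        simp [suspVec, heg]
      · by_cases h2 : a = g
        · subst h2
          simp [suspVec, h1]
        · simp [suspVec, h1, h2]
    simp only [this, Finset.sum_add_distrib, Finset.sum_ite_eq', Finset.mem_univ, if_true]
    ring

theorem susp_fan {K : Set (Set α)} (hK : IsComplex K) {v : α → V} (hf : IsFan K v)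
    {e g : α} (heg : e ≠ g) (he : ∀ F ∈ K, e ∉ F) :
    IsFan (susp K e g) (suspVec v e g) := by
  rw [isFan_iff]
  rintro ⟨p, h⟩
  obtain ⟨x, ⟨hx0, hxK, hxp⟩, hxu⟩ := hf p
  have hxp : Phi v x = p := hxp
  have hxe : x e = 0 := by
    have := he _ hxK
    simpa using this
  obtain ⟨z, ⟨hz0, hzK, hzp⟩, hzu⟩ := hf (p + h • v g)
  have hzp : Phi v z = p + h • v g := hzp
  have hze : z e = 0 := by
    have := he _ hzK
    simpa using this
  -- every solution is of one of two kinds
  have key : ∀ y : α → ℝ, (∀ a, 0 ≤ y a) → Function.support y ∈ susp K e g →
      Phi (suspVec v e g) y = (p, h) →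
      (y = Function.update x e (h + x g) ∧ 0 ≤ h + x g) ∨
        (h < 0 ∧ z g = 0 ∧ y = Function.update z g (-h)) := by
    intro y hy hyK hyp
    rw [Phi_suspVec v heg, Prod.mk.injEq] at hyp
    obtain ⟨hyp, hyh⟩ := hyp
    have hA : Function.support (Function.update y e 0) ∈ K →
        (y = Function.update x e (h + x g) ∧ 0 ≤ h + x g) := by
      intro hs
      have h1 : Function.update y e 0 = x := by
        apply hxu
        refine ⟨?_, hs, hyp⟩
        intro a
        by_cases h2 : a = e
        · subst h2
          simp
        · simpa [h2] using hy a
      have h2 : y g = x g := by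
        rw [← h1, Function.update_of_ne (Ne.symm heg)]
      have h3 : y e = h + x g := by linarith
      refine ⟨?_, h3 ▸ hy e⟩
      rw [← h3, ← h1]
      simp
    rcases hyK with ⟨h1, h2, h3⟩ | ⟨h1, h2⟩
    · left
      apply hA
      have : Function.support (Function.update y e 0) = Function.support y \ {e} := by
        ext a
        by_cases h4 : a = e
        · subst h4
          simp
        · simp [h4]
      rw [this]
      exact h3
    · by_cases hg : y g = 0
      · left
        apply hA
        have : Function.support (Function.update y e 0) = Function.support y \ {e, g} := by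
          ext a
          by_cases h4 : a = e
          · subst h4
            simp
          · by_cases h5 : a = g
            · subst h5
              simp [h4, hg]
            · simp [h4, h5]
        rw [this]
        exact h2
      · right
        have hye : y e = 0 := by
          by_contra h4
          exact h1 ⟨h4, hg⟩
        have hgp : 0 < y g := lt_of_le_of_ne (hy g) (Ne.symm hg)
        have hh : y g = -h := by linarith
        have hzy : Function.update y g 0 = z := by
          apply hzu
          refine ⟨?_, ?_, ?_⟩
          · intro a
            by_cases h2 : a = g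
            · subst h2
              simp
            · simpa [h2] using hy a
          · have : Function.support (Function.update y g 0) = Function.support y \ {e, g} := by
              ext a
              by_cases h4 : a = g
              · subst h4
                simp
              · by_cases h5 : a = e
                · subst h5
                  simp [h4, hye]
                · simp [h4, h5]
            rw [this]
            exact h2
          · show Phi v _ = _
            have h6 : Function.update y e 0 = y := by
              rw [← hye]
              simp
            rw [h6] at hyp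
            rw [Phi_update_right, hyp, hh]
            simp
        refine ⟨by linarith, ?_, ?_⟩
        · rw [← hzy]
          simp
        · rw [← hzy, ← hh]
          simp
  -- if both kinds occur they agree
  have hboth : 0 ≤ h + x g → h < 0 → z g = 0 →
      Function.update x e (h + x g) = Function.update z g (-h) := by
    intro h1 h2 h3
    have h4 : Function.update x g (x g + h) = z := by
      apply hzu
      refine ⟨?_, ?_, ?_⟩
      · intro a
        by_cases h5 : a = g
        · subst h5
          simp
          linarith
        · simpa [h5] using hx0 a
      · refine hK.2 _ hxK _ ?_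
        intro a ha
        by_cases h5 : a = g
        · subst h5
          simp only [Function.mem_support]
          intro h6
          linarith
        · simpa [h5] using ha
      · show Phi v _ = _
        rw [Phi_update_right, hxp]
        congr 2
        ring
    have h5 : x g + h = 0 := by
      rw [← h4] at h3
      simpa using h3
    have h6 : h + x g = 0 := by linarith
    have h7 : -h = x g := by linarith
    rw [h6, h7, ← h4]
    have h8 : Function.update x e 0 = x := by
      rw [← hxe]
      simp
    rw [h8]
    simp
  -- existence
  have hex : ∃ y : α → ℝ, (∀ a, 0 ≤ y a) ∧ Function.support y ∈ susp K e g ∧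
      Phi (suspVec v e g) y = (p, h) := by
    by_cases hc : 0 ≤ h + x g
    · refine ⟨Function.update x e (h + x g), ?_, ?_, ?_⟩
      · intro a
        by_cases h2 : a = e
        · subst h2
          simpa using hc
        · simpa [h2] using hx0 a
      · by_cases h1 : e ∈ Function.support (Function.update x e (h + x g)) ∧
            g ∈ Function.support (Function.update x e (h + x g))
        · refine Or.inl ⟨h1.1, h1.2, hK.2 _ hxK _ ?_⟩
          rintro a ⟨ha, ha'⟩
          have ha' : a ≠ e := ha'
          simpa [ha'] using ha
        · refine Or.inr ⟨h1, hK.2 _ hxK _ ?_⟩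
          rintro a ⟨ha, ha'⟩
          have ha' : a ≠ e := fun h => ha' (Or.inl h)
          simpa [ha'] using ha
      · rw [Phi_suspVec v heg]
        have h8 : Function.update (Function.update x e (h + x g)) e 0 = x := by
          rw [Function.update_idem, ← hxe]
          simp
        rw [h8, hxp]
        congr 1
        rw [Function.update_self, Function.update_of_ne (Ne.symm heg)]
        ring
    · have hc' : h + x g < 0 := lt_of_not_ge hc
      have hh : h < 0 := by
        have := hx0 g
        linarith
      have hzg : z g = 0 := by
        by_contra hzg
        have hzp' : 0 < z g := lt_of_le_of_ne (hz0 g) (Ne.symm hzg)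
        have h1 : Function.update z g (z g - h) = x := by
          apply hxu
          refine ⟨?_, ?_, ?_⟩
          · intro a
            by_cases h5 : a = g
            · subst h5
              simp
              linarith
            · simpa [h5] using hz0 a
          · refine hK.2 _ hzK _ ?_
            intro a ha
            by_cases h5 : a = g
            · subst h5
              exact hzg
            · simpa [h5] using ha
          · show Phi v _ = _
            rw [Phi_update_right, hzp]
            have : z g - h - z g = - h := by ring
            rw [this]
            simp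
        have h2 : x g = z g - h := by
          rw [← h1]
          simp
        linarith
      refine ⟨Function.update z g (-h), ?_, ?_, ?_⟩
      · intro a
        by_cases h2 : a = g
        · subst h2
          simp
          linarith
        · simpa [h2] using hz0 a
      · right
        refine ⟨?_, hK.2 _ hzK _ ?_⟩
        · rintro ⟨h1, -⟩
          apply h1
          rw [Function.update_of_ne heg, hze]
        · rintro a ⟨ha, ha'⟩
          have ha' : a ≠ g := fun h => ha' (Or.inr h)
          simpa [ha'] using ha
      · rw [Phi_suspVec v heg]
        have h8 : Function.update (Function.update z g (-h)) e 0 = Function.update z g (-h) := by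
          have : (0 : ℝ) = Function.update z g (-h) e := by
            rw [Function.update_of_ne heg, hze]
          rw [this]
          simp
        rw [h8, Phi_update_right, hzp, Function.update_self, Function.update_of_ne heg, hze, hzg]
        simp
  obtain ⟨y, hy0, hyK, hyp⟩ := hex
  refine ⟨y, ⟨hy0, hyK, hyp⟩, ?_⟩
  rintro y' ⟨hy0', hyK', hyp'⟩
  have hyp' : Phi _ y' = (p, h) := hyp'
  rcases key y hy0 hyK hyp with ⟨h1, h2⟩ | ⟨h1, h2, h3⟩
  · rcases key y' hy0' hyK' hyp' with ⟨h4, h5⟩ | ⟨h4, h5, h6⟩
    · rw [h1, h4]
    · rw [h1, h6]
      exact (hboth h2 h4 h5).symm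
  · rcases key y' hy0' hyK' hyp' with ⟨h4, h5⟩ | ⟨h4, h5, h6⟩
    · rw [h3, h4]
      exact hboth h5 h1 h2
    · rw [h3, h6]

end Pool.Agent.Q38.SB
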